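import Pool.Agent.H41.SS.Targets2

/-!
The parameters of the second part for `2 ≤ R` (MP_c62aed_lc, row NM4).
-/

set_option autoImplicit false

namespace Pool.Agent.H67.SSM

open Finset Pool.Agent.H97.RK Pool.Agent.H97.RL Pool.Agent.H41.SS

private lemma pow4 {n a : ℕ} {th lam : ℝ} (hn : 0 < (n : ℝ)) (hth : 0 < th)
    (ha : 6 * (th * n) ≤ a) (hF2 : 1 / th ≤ Real.exp (lam / 2)) (b : ℕ) :
    (Real.exp 1 * n / a) ^ b ≤ Real.exp (b * (lam / 2)) := by
  have htn : 0 < th * n := by positivity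
  have ha0 : (0 : ℝ) < a := by linarith
  have h0 : (0 : ℝ) ≤ Real.exp 1 * n / a := by positivity
  have he : Real.exp 1 ≤ 3 := by
    have := Real.exp_one_lt_d9
    linarith
  have h1 : Real.exp 1 * n / a ≤ 1 / th := by
    rw [div_le_div_iff₀ ha0 hth]
    have h2 : Real.exp 1 * n * th ≤ 3 * (th * n) := by
      have := mul_le_mul_of_nonneg_right he htn.le
      linarith
    linarith
  calc (Real.exp 1 * n / a) ^ b ≤ (Real.exp (lam / 2)) ^ b := pow_le_pow_left₀ h0 (h1.trans hF2) b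
    _ = Real.exp (b * (lam / 2)) := by
      rw [← Real.exp_nat_mul]

private lemma expid4 (a b c d e P : ℝ) (hP : 0 < P) :
    Real.exp a * Real.exp b * (Real.exp c * P) * (P⁻¹ * Real.exp (-d)) * Real.exp e =
      Real.exp (a + b + c - d + e) := by
  rw [Real.exp_add (a + b + c - d) e, sub_eq_add_neg, Real.exp_add, Real.exp_add, Real.exp_add]
  field_simp

private lemma main4 (n k m D w E u : ℕ) (l s A th lam : ℝ) (hl1 : 1 ≤ l) (hkl : Real.exp l = k)
    (hs1 : 1 ≤ s) (hnk : (n : ℝ) = s * k) (hk : 0 < (k : ℝ)) (hA0 : 0 ≤ A)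
    (hm : (m : ℝ) ≤ Real.exp A * 2 ^ k * n) (hD1 : 1 ≤ D) (hlam : 1 ≤ lam) (hth : 0 < th)
    (hF2 : 1 / th ≤ Real.exp (lam / 2)) (hD : 3 * (lam * s) ≤ D)
    (hw1 : 6 * (th * n) ≤ w) (hw2 : (w : ℝ) ≤ 20 * (th * n))
    (hE1 : 16 * (th * n) + 4 * ((l + A) * s) ≤ E)
    (hE2 : (E : ℝ) ≤ 16 * (th * n) + 4 * ((l + A) * s) + 1) (hEn : E ≤ n)
    (hu : (u : ℝ) ≤ lam * th * n + (l ^ 2 + (l + A)) * s) (hls : l ^ 2 * s ≤ th * n)
    (h6 : Real.log (16 * n ^ 2) ≤ lam * th * n) (hX1 : 2 ≤ th * n) (hCHO : T_CHO) :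
    (n.choose (w + E) : ℝ) * n.choose w * m.choose D *
        (((n : ℝ) - (w + E : ℕ) + w) / (2 * n)) ^ (k * D) * 2 ^ (u + 1) ≤
      1 / (16 * n ^ 2) := by
  have hn : 0 < (n : ℝ) := by rw [hnk]; positivity
  have hDp : (0 : ℝ) < D := by exact_mod_cast hD1
  have hD1' : (1 : ℝ) ≤ D := by exact_mod_cast hD1
  have he : Real.exp 1 ≤ 3 := by
    have := Real.exp_one_lt_d9
    linarith
  have hw0 : (0 : ℝ) < w := by linarith
  have hw0' : 1 ≤ w := by exact_mod_cast hw0
  have hls2 : s ≤ lam * s := le_mul_of_one_le_left (by linarith) hlam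
  -- e n / D <= k
  have hb : Real.exp 1 * n / D ≤ k := by
    rw [div_le_iff₀ hDp, hnk]
    have h1 : Real.exp 1 * (s * k) ≤ 3 * (s * k) :=
      mul_le_mul_of_nonneg_right he (by positivity)
    have h2 := mul_le_mul_of_nonneg_left (show 3 * s ≤ D by linarith) hk.le
    linarith
  have c1 : (n.choose (w + E) : ℝ) ≤ Real.exp ((w + E : ℕ) * (lam / 2)) := by
    refine (hCHO.1 n (w + E) (by omega)).trans (pow4 hn hth ?_ hF2 _)
    push_cast
    have : (0 : ℝ) ≤ E := Nat.cast_nonneg _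
    linarith
  have c2 : (n.choose w : ℝ) ≤ Real.exp ((w : ℕ) * (lam / 2)) :=
    (hCHO.1 n w hw0').trans (pow4 hn hth hw1 hF2 _)
  -- the clauses
  have c3 : (m.choose D : ℝ) ≤ Real.exp (D * (A + l)) * (2 ^ k) ^ D := by
    refine (hCHO.1 m D hD1).trans ?_
    have h1 : Real.exp 1 * m / D ≤ Real.exp (A + l) * 2 ^ k := by
      have h2 : Real.exp 1 * m / D ≤ Real.exp 1 * (Real.exp A * 2 ^ k * n) / D := by
        apply div_le_div_of_nonneg_right _ hDp.le
        exact mul_le_mul_of_nonneg_left hm (Real.exp_pos 1).le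
      have h3 : Real.exp 1 * (Real.exp A * 2 ^ k * n) / D =
          Real.exp A * 2 ^ k * (Real.exp 1 * n / D) := by ring
      have h4 : Real.exp A * 2 ^ k * (Real.exp 1 * n / D) ≤ Real.exp A * 2 ^ k * k :=
        mul_le_mul_of_nonneg_left hb (by positivity)
      rw [Real.exp_add, hkl]
      calc Real.exp 1 * m / D ≤ _ := h2
        _ = _ := h3
        _ ≤ _ := h4
        _ = _ := by ring
    calc (Real.exp 1 * m / D) ^ D ≤ (Real.exp (A + l) * 2 ^ k) ^ D :=
          pow_le_pow_left₀ (by positivity) h1 D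
      _ = Real.exp (D * (A + l)) * (2 ^ k) ^ D := by
        rw [mul_pow, ← Real.exp_nat_mul]
  -- the factor
  have hEn' : (E : ℝ) ≤ n := by exact_mod_cast hEn
  have c4 : (((n : ℝ) - (w + E : ℕ) + w) / (2 * n)) ^ (k * D) ≤
      ((2 ^ k) ^ D)⁻¹ * Real.exp (-(D * (16 * (th * k) + 4 * (l + A)))) := by
    have h1 : ((n : ℝ) - (w + E : ℕ) + w) / (2 * n) = 2⁻¹ * (1 - E / n) := by
      push_cast
      field_simp
      ring
    rw [h1]
    have h2 : 0 ≤ 1 - (E : ℝ) / n := by
      rw [sub_nonneg, div_le_one hn]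
      exact hEn'
    have h3 : 1 - (E : ℝ) / n ≤ Real.exp (-(E / n)) := by
      have := Real.add_one_le_exp (-((E : ℝ) / n))
      linarith
    calc (2⁻¹ * (1 - (E : ℝ) / n)) ^ (k * D) ≤ (2⁻¹ * Real.exp (-(E / n))) ^ (k * D) := by
          apply pow_le_pow_left₀ (by positivity)
          exact mul_le_mul_of_nonneg_left h3 (by norm_num)
      _ = ((2 ^ k) ^ D)⁻¹ * Real.exp ((k * D : ℕ) * (-(E / n))) := by
          rw [mul_pow, ← Real.exp_nat_mul, inv_pow, pow_mul]
      _ ≤ ((2 ^ k) ^ D)⁻¹ * Real.exp (-(D * (16 * (th * k) + 4 * (l + A)))) := by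
          apply mul_le_mul_of_nonneg_left _ (by positivity)
          apply Real.exp_le_exp.mpr
          have h4 : ((k * D : ℕ) : ℝ) * (-(E / n)) = -(D * (E / s)) := by
            rw [hnk]
            push_cast
            have : s ≠ 0 := by positivity
            field_simp
          rw [h4, neg_le_neg_iff]
          apply mul_le_mul_of_nonneg_left _ hDp.le
          rw [le_div_iff₀ (by positivity)]
          have h5 : (16 * (th * k) + 4 * (l + A)) * s = 16 * (th * n) + 4 * ((l + A) * s) := by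
            rw [hnk]
            ring
          rw [h5]
          exact hE1
  have c5 : (2 : ℝ) ^ (u + 1) ≤ Real.exp (u + 1) := by
    have h1 : (2 : ℝ) ≤ Real.exp 1 := by
      have := Real.exp_one_gt_d9
      linarith
    calc (2 : ℝ) ^ (u + 1) ≤ Real.exp 1 ^ (u + 1) := pow_le_pow_left₀ (by norm_num) h1 _
      _ = Real.exp (u + 1) := by
        rw [← Real.exp_nat_mul]
        push_cast
        ring_nf
  have hbase : (0 : ℝ) ≤ ((n : ℝ) - (w + E : ℕ) + w) / (2 * n) := by
    apply div_nonneg _ (by positivity)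
    push_cast
    linarith
  have hpow : (0 : ℝ) < (2 ^ k) ^ D := by positivity
  calc (n.choose (w + E) : ℝ) * n.choose w * m.choose D *
        (((n : ℝ) - (w + E : ℕ) + w) / (2 * n)) ^ (k * D) * 2 ^ (u + 1)
      ≤ Real.exp ((w + E : ℕ) * (lam / 2)) * Real.exp ((w : ℕ) * (lam / 2)) *
          (Real.exp (D * (A + l)) * (2 ^ k) ^ D) *
          (((2 ^ k) ^ D)⁻¹ * Real.exp (-(D * (16 * (th * k) + 4 * (l + A))))) *
          Real.exp (u + 1) := by
        gcongr
    _ = Real.exp ((w + E : ℕ) * (lam / 2) + (w : ℕ) * (lam / 2) + D * (A + l) -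
          D * (16 * (th * k) + 4 * (l + A)) + (u + 1)) := by
        exact expid4 _ _ _ _ _ _ hpow
    _ ≤ Real.exp (-Real.log (16 * n ^ 2)) := by
        apply Real.exp_le_exp.mpr
        push_cast
        have hlam0 : 0 ≤ lam := by linarith
        have e1 : (2 * (w : ℝ) + E) * lam ≤
            (40 * (th * n) + (16 * (th * n) + 4 * ((l + A) * s) + 1)) * lam :=
          mul_le_mul_of_nonneg_right (by linarith) hlam0
        have e2 : 4 * ((l + A) * s) * lam ≤ 4 / 3 * (D * (l + A)) := by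
          have := mul_le_mul_of_nonneg_right hD (show 0 ≤ l + A by linarith)
          linarith
        have e3 : 2 * lam ≤ lam * th * n := by
          have := mul_le_mul_of_nonneg_left hX1 hlam0
          linarith
        have e4 : 3 * (lam * th * n) ≤ D * (th * k) := by
          have := mul_le_mul_of_nonneg_right hD (show 0 ≤ th * k by positivity)
          have h7 : 3 * (lam * s) * (th * k) = 3 * (lam * th * n) := by
            rw [hnk]
            ring
          linarith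
        have e5 : th * n ≤ lam * th * n := by
          have := mul_le_mul_of_nonneg_right hlam (show 0 ≤ th * n by positivity)
          linarith
        have e6 : 3 * ((l + A) * s) ≤ D * (l + A) := by
          have := mul_le_mul_of_nonneg_right (show 3 * s ≤ D by linarith)
            (show 0 ≤ l + A by linarith)
          linarith
        have e7 : 0 ≤ D * (l + A) := by positivity
        linarith
    _ = 1 / (16 * n ^ 2) := by
        rw [Real.exp_neg, Real.exp_log (by positivity), one_div]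

/-- the growth of `log k` -/
private lemma logk {k : ℕ} (hk : 2 ^ 24 ≤ k) :
    20 * Real.log k ≤ Real.sqrt k ∧ Real.log k ^ 2 ≤ Real.sqrt k ∧ 4096 ≤ Real.sqrt k := by
  have hkR : (2 : ℝ) ^ 24 ≤ k := by exact_mod_cast hk
  have hk0 : (0 : ℝ) < k := by
    have : (0 : ℝ) < 2 ^ 24 := by norm_num
    linarith
  obtain ⟨σ, hσ⟩ : ∃ σ : ℝ, σ = Real.sqrt k := ⟨_, rfl⟩
  obtain ⟨r, hr⟩ : ∃ r : ℝ, r = Real.sqrt σ := ⟨_, rfl⟩
  obtain ⟨q, hq⟩ : ∃ q : ℝ, q = Real.sqrt r := ⟨_, rfl⟩
  have hσ4 : (4096 : ℝ) ≤ σ := by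
    rw [hσ]
    apply Real.le_sqrt_of_sq_le
    have h : (4096 : ℝ) ^ 2 = 2 ^ 24 := by norm_num
    rw [h]
    exact hkR
  have hr64 : (64 : ℝ) ≤ r := by
    rw [hr]
    apply Real.le_sqrt_of_sq_le
    linarith
  have hq8 : (8 : ℝ) ≤ q := by
    rw [hq]
    apply Real.le_sqrt_of_sq_le
    linarith
  have e1 : q ^ 2 = r := by
    rw [hq]
    exact Real.sq_sqrt (by linarith)
  have e2 : r ^ 2 = σ := by
    rw [hr]
    exact Real.sq_sqrt (by linarith)
  have e3 : σ ^ 2 = k := by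
    rw [hσ]
    exact Real.sq_sqrt hk0.le
  have hlk : Real.log k = 8 * Real.log q := by
    have h1 : (k : ℝ) = q ^ 8 := by
      rw [← e3, ← e2, ← e1]
      ring
    rw [h1, Real.log_pow]
    norm_num
  have hlq : Real.log q ≤ q := by
    have := Real.log_le_sub_one_of_pos (show 0 < q by linarith)
    linarith
  have hlq0 : 0 ≤ Real.log q := Real.log_nonneg (by linarith)
  rw [← hσ]
  refine ⟨?_, ?_, hσ4⟩
  · rw [hlk, ← e2, ← e1]
    nlinarith [mul_nonneg (show 0 ≤ q - 8 by linarith) (show 0 ≤ q by linarith),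
      mul_nonneg (show 0 ≤ q ^ 2 - 64 by nlinarith) (show 0 ≤ q ^ 2 by positivity)]
  · rw [hlk, ← e2, ← e1]
    have h1 : Real.log q ^ 2 ≤ q ^ 2 := pow_le_pow_left₀ hlq0 hlq 2
    nlinarith [mul_nonneg (show 0 ≤ q ^ 2 - 64 by nlinarith) (show 0 ≤ q ^ 2 by positivity)]

theorem pf_NM4 (hCHO : T_CHO) : T_NM4 := by
  refine ⟨2 ^ 24, by norm_num, ?_⟩
  intro k n m R hk hn hR2 hRk hf
  obtain ⟨g1, g2, g3⟩ := logk hk
  have hkR : (2 : ℝ) ^ 24 ≤ k := by exact_mod_cast hk
  have hk0 : (0 : ℝ) < k := by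
    have : (0 : ℝ) < 2 ^ 24 := by norm_num
    linarith
  have hnR : (2 : ℝ) ^ 24 * (k : ℝ) ≤ n := by exact_mod_cast hn
  have hn0 : (0 : ℝ) < n := by
    have : (0 : ℝ) < 2 ^ 24 * k := by positivity
    linarith
  have hR2' : (2 : ℝ) ≤ R := by exact_mod_cast hR2
  have hRk' : (R : ℝ) ≤ k := by exact_mod_cast hRk
  obtain ⟨l, hl⟩ : ∃ l : ℝ, l = Real.log k := ⟨_, rfl⟩
  obtain ⟨σ, hσ⟩ : ∃ σ : ℝ, σ = Real.sqrt k := ⟨_, rfl⟩
  obtain ⟨x, hx⟩ : ∃ x : ℝ, x = m / (2 ^ k * n) := ⟨_, rfl⟩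
  obtain ⟨A, hA⟩ : ∃ A : ℝ, A = Real.log (1 + x) := ⟨_, rfl⟩
  obtain ⟨s, hs⟩ : ∃ s : ℝ, s = n / k := ⟨_, rfl⟩
  obtain ⟨th, hth⟩ : ∃ th : ℝ, th = Real.sqrt (((R : ℝ) - 1) / k) := ⟨_, rfl⟩
  obtain ⟨lam, hlam⟩ : ∃ lam : ℝ, lam = 1 + Real.log (k / R) := ⟨_, rfl⟩
  obtain ⟨f, hfd⟩ : ∃ f : ℝ, f = Pool.Agent.H41.SS.lp n k m R := ⟨_, rfl⟩
  rw [← hl] at g1 g2
  rw [← hσ] at g1 g2 g3
  rw [← hfd] at hf ⊢
  have hx0 : 0 ≤ x := by rw [hx]; positivity
  have hA0 : 0 ≤ A := by rw [hA]; exact Real.log_nonneg (by linarith)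
  have hlg : lg n k m = l + A := by
    rw [lg, ← hx, Real.log_mul hk0.ne' (by positivity), hl, hA]
  have hσ2 : σ ^ 2 = k := by
    rw [hσ]
    exact Real.sq_sqrt hk0.le
  have hσ0 : 0 < σ := by linarith
  have hnk : (n : ℝ) = s * k := by
    rw [hs]
    field_simp
  have hs1 : 2 ^ 24 ≤ s := by
    rw [hs, le_div_iff₀ hk0]
    exact hnR
  have hs0 : 0 < s := lt_of_lt_of_le (by norm_num) hs1
  have hs1' : 1 ≤ s := le_trans (by norm_num) hs1
  have hkl : Real.exp l = k := by rw [hl, Real.exp_log hk0]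
  have hl1 : 1 ≤ l := by
    rw [hl, Real.le_log_iff_exp_le hk0]
    have := Real.exp_one_lt_d9
    have h2 : (3 : ℝ) ≤ 2 ^ 24 := by norm_num
    linarith
  -- `th`
  have hth2 : th ^ 2 * k = R - 1 := by
    rw [hth, Real.sq_sqrt (div_nonneg (by linarith) hk0.le)]
    field_simp
  have hthσ : 1 ≤ th * σ := by
    rw [hth, hσ, ← Real.sqrt_mul (div_nonneg (by linarith) hk0.le), div_mul_cancel₀ _ hk0.ne']
    rw [Real.one_le_sqrt]
    linarith
  have hth0 : 0 < th := by
    by_contra h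
    have h1 : th * σ ≤ 0 := mul_nonpos_of_nonpos_of_nonneg (not_lt.1 h) hσ0.le
    linarith
  -- `lam`
  have hkR1 : 1 ≤ (k : ℝ) / R := by
    rw [one_le_div (by linarith)]
    exact hRk'
  have hlam1 : 1 ≤ lam := by
    rw [hlam]
    have := Real.log_nonneg hkR1
    linarith
  have hlaml : lam ≤ 2 * l := by
    have h1 : Real.log (k / R) ≤ l := by
      rw [hl]
      apply Real.log_le_log (by positivity)
      rw [div_le_iff₀ (by linarith)]
      exact le_mul_of_one_le_right hk0.le (by linarith)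
    linarith
  have hF2 : 1 / th ≤ Real.exp (lam / 2) := by
    have h1 : Real.exp lam = Real.exp 1 * (k / R) := by
      rw [hlam, Real.exp_add, Real.exp_log (by positivity)]
    have h2 : (1 / th) ^ 2 ≤ Real.exp (lam / 2) ^ 2 := by
      rw [← Real.exp_nat_mul, show ((2 : ℕ) : ℝ) * (lam / 2) = lam by push_cast; ring, h1, div_pow,
        one_pow, div_le_iff₀ (by positivity)]
      have h3 : th ^ 2 = (R - 1) / k := by
        rw [← hth2]
        field_simp
      rw [h3]
      have h4 : Real.exp 1 * (k / R) * ((R - 1) / k) = Real.exp 1 * ((R - 1) / R) := by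
        field_simp
      rw [h4]
      have h5 : (1 : ℝ) / 2 ≤ (R - 1) / R := by
        rw [div_le_div_iff₀ (by norm_num) (by linarith)]
        linarith
      have h6 : (2 : ℝ) ≤ Real.exp 1 := by
        have := Real.exp_one_gt_d9
        linarith
      calc (1 : ℝ) = 2 * (1 / 2) := by norm_num
        _ ≤ Real.exp 1 * ((R - 1) / R) := mul_le_mul h6 h5 (by norm_num) (Real.exp_pos 1).le
    exact le_of_sq_le_sq h2 (Real.exp_pos _).le
  have hlam0 : 0 < lam := by linarith
  -- `s` and `th n`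
  have hthn : th * n = (th * σ) * (σ * s) := by
    rw [hnk, ← hσ2]
    ring
  have hthn1 : σ * s ≤ th * n := by
    rw [hthn]
    exact le_mul_of_one_le_left (by positivity) hthσ
  have hthn2 : 4096 * s ≤ th * n := by
    have := mul_le_mul_of_nonneg_right g3 hs0.le
    linarith
  have hthn0 : 0 < th * n := by positivity
  have hlams : 10 * (lam * s) ≤ th * n := by
    have h1 : 10 * lam ≤ σ := by linarith
    have := mul_le_mul_of_nonneg_right h1 hs0.le
    linarith
  have hl2s : l ^ 2 * s ≤ th * n := by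
    have := mul_le_mul_of_nonneg_right g2 hs0.le
    linarith
  have hlamthn : th * n ≤ lam * th * n := by
    have := mul_le_mul_of_nonneg_right hlam1 hthn0.le
    linarith
  have hslams : s ≤ lam * s := le_mul_of_one_le_left hs0.le hlam1
  -- `f n`
  have hfn : f * n = lam * th * n + (l ^ 2 + (l + A)) * s := by
    rw [hfd, Pool.Agent.H41.SS.lp, ← hlam, ← hth, ← hl, hlg, hnk]
    field_simp
  have hl0 : 0 ≤ l := by linarith
  have hLs0 : 0 ≤ (l + A) * s := by positivity
  have hl2s0 : 0 ≤ l ^ 2 * s := by positivity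
  have hfn' : f * n = lam * th * n + l ^ 2 * s + (l + A) * s := by
    rw [hfn]
    ring
  have hlth0 : 0 ≤ lam * th * n := by positivity
  have hf1 : lam * th * n ≤ f * n := by linarith
  have hf2 : (l + A) * s ≤ f * n := by linarith
  have hf3 : lam * s ≤ f * n := by
    have h0 : 0 ≤ (l - 1) * l := mul_nonneg (by linarith) hl0
    have h1 : lam ≤ l ^ 2 + (l + A) := by linarith
    have h2 := mul_le_mul_of_nonneg_right h1 hs0.le
    linarith
  have hfK : 2 ^ 24 * (f * n) ≤ n := by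
    have h1 := mul_le_mul_of_nonneg_right hf hn0.le
    push_cast at h1
    linarith
  have hf4 : 1 ≤ f * n := by linarith
  -- the parameters
  obtain ⟨G, hG⟩ : ∃ G : ℕ, G = ⌈lam * th * n⌉₊ := ⟨_, rfl⟩
  obtain ⟨P, hP⟩ : ∃ P : ℕ, P = ⌈k * th / lam⌉₊ := ⟨_, rfl⟩
  obtain ⟨D, hD⟩ : ∃ D : ℕ, D = ⌈3 * (lam * s)⌉₊ := ⟨_, rfl⟩
  obtain ⟨E, hE⟩ : ∃ E : ℕ, E = ⌈16 * (th * n) + 4 * ((l + A) * s)⌉₊ := ⟨_, rfl⟩
  obtain ⟨u, hu⟩ : ∃ u : ℕ, u = ⌊f * n⌋₊ := ⟨_, rfl⟩
  obtain ⟨w, hw⟩ : ∃ w : ℕ, w = 2 * D * P + 6 * D := ⟨_, rfl⟩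
  have hG1 : lam * th * n ≤ G := by
    rw [hG]
    exact Nat.le_ceil _
  have hG2 : (G : ℝ) ≤ lam * th * n + 1 := by
    rw [hG]
    exact (Nat.ceil_lt_add_one (by positivity)).le
  have hP1 : k * th / lam ≤ P := by
    rw [hP]
    exact Nat.le_ceil _
  have hq1 : 1 ≤ k * th / lam := by
    rw [one_le_div hlam0]
    have h1 : σ ≤ k * th := by
      rw [← hσ2]
      have := mul_le_mul_of_nonneg_left hthσ hσ0.le
      linarith
    linarith
  have hP2 : (P : ℝ) ≤ 2 * (k * th / lam) := by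
    have h1 : (P : ℝ) ≤ k * th / lam + 1 := by
      rw [hP]
      exact (Nat.ceil_lt_add_one (by positivity)).le
    linarith
  have hD1 : 3 * (lam * s) ≤ D := by
    rw [hD]
    exact Nat.le_ceil _
  have hD2 : (D : ℝ) ≤ 4 * (lam * s) := by
    have h1 : (D : ℝ) ≤ 3 * (lam * s) + 1 := by
      rw [hD]
      exact (Nat.ceil_lt_add_one (by positivity)).le
    linarith
  have hE1 : 16 * (th * n) + 4 * ((l + A) * s) ≤ E := by
    rw [hE]
    exact Nat.le_ceil _
  have hE2 : (E : ℝ) ≤ 16 * (th * n) + 4 * ((l + A) * s) + 1 := by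
    rw [hE]
    exact (Nat.ceil_lt_add_one (by positivity)).le
  have hu1 : (u : ℝ) ≤ f * n := by
    rw [hu]
    exact Nat.floor_le (by linarith)
  have hD1' : 1 ≤ D := by
    have : (0 : ℝ) < D := by
      have : 0 < lam * s := by positivity
      linarith
    exact_mod_cast this
  have hP1' : 1 ≤ P := by
    have : (0 : ℝ) < P := by linarith
    exact_mod_cast this
  -- sizes
  have hDP1 : 3 * (th * n) ≤ (D : ℝ) * P := by
    have h1 : 3 * (lam * s) * (k * th / lam) ≤ (D : ℝ) * P :=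
      mul_le_mul hD1 hP1 (by positivity) (by positivity)
    have h2 : 3 * (lam * s) * (k * th / lam) = 3 * (th * n) := by
      rw [hnk]
      field_simp
    linarith
  have hDP2 : (D : ℝ) * P ≤ 8 * (th * n) := by
    have h1 : (D : ℝ) * P ≤ 4 * (lam * s) * (2 * (k * th / lam)) :=
      mul_le_mul hD2 hP2 (by positivity) (by positivity)
    have h2 : 4 * (lam * s) * (2 * (k * th / lam)) = 8 * (th * n) := by
      rw [hnk]
      field_simp
      ring
    linarith
  have hwR : (w : ℝ) = 2 * ((D : ℝ) * P) + 6 * D := by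
    rw [hw]
    push_cast
    ring
  have hD0 : (0 : ℝ) ≤ D := Nat.cast_nonneg _
  have hw1 : 6 * (th * n) ≤ w := by
    rw [hwR]
    linarith
  have hw2 : (w : ℝ) ≤ 20 * (th * n) := by
    rw [hwR]
    linarith
  have hEf : (E : ℝ) ≤ 21 * (f * n) := by linarith
  have hEn : E ≤ n := by
    have : (E : ℝ) ≤ n := by linarith
    exact_mod_cast this
  have hwf : (w : ℝ) ≤ 20 * (f * n) := by linarith
  have hDn : 64 * D ≤ n := by
    have : (64 : ℝ) * D ≤ n := by linarith
    exact_mod_cast this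
  have hsumn : u + w + (w + E) ≤ n := by
    have : (u : ℝ) + w + (w + E) ≤ n := by linarith
    exact_mod_cast this
  have hRPG : (R - 1) * n ≤ P * G := by
    have h1 : ((R : ℝ) - 1) * n ≤ P * G := by
      have h2 : (k * th / lam) * (lam * th * n) ≤ (P : ℝ) * G :=
        mul_le_mul hP1 hG1 (by positivity) (by positivity)
      have h3 : (k * th / lam) * (lam * th * n) = (R - 1) * n := by
        rw [← hth2]
        field_simp
      linarith
    have h4 : ((R - 1 : ℕ) : ℝ) = R - 1 := by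
      rw [Nat.cast_sub (by omega)]
      simp
    have h5 : (((R - 1) * n : ℕ) : ℝ) ≤ ((P * G : ℕ) : ℝ) := by
      push_cast [h4]
      exact h1
    exact_mod_cast h5
  have hm : (m : ℝ) ≤ Real.exp A * 2 ^ k * n := by
    rw [hA, Real.exp_log (by positivity)]
    have h0 : (0 : ℝ) < 2 ^ k * n := by positivity
    have h1 : (m : ℝ) = x * (2 ^ k * n) := by
      rw [hx]
      field_simp
    calc (m : ℝ) = x * (2 ^ k * n) := h1
      _ ≤ x * (2 ^ k * n) + 2 ^ k * n := by linarith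
      _ = (1 + x) * 2 ^ k * n := by ring
  have hlog6 : Real.log (16 * (n : ℝ) ^ 2) ≤ lam * th * n := by
    rw [Real.log_mul (by norm_num) (by positivity), Real.log_pow, hnk,
      Real.log_mul hs0.ne' hk0.ne', ← hl]
    have h1 : Real.log 16 ≤ 3 := by
      have : Real.log 16 = 4 * Real.log 2 := by
        rw [show (16 : ℝ) = 2 ^ 4 by norm_num, Real.log_pow]
        norm_num
      rw [this]
      have := Real.log_two_lt_d9
      linarith
    have h2 : Real.log s ≤ s := by
      have := Real.log_le_sub_one_of_pos hs0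
      linarith
    have h6 : 20 * l ≤ th * n := by
      have h7 : σ ≤ σ * s := le_mul_of_one_le_right hσ0.le hs1'
      linarith
    push_cast
    rw [← hnk]
    linarith
  refine ⟨D, w + E, w, u, G, P, hD1', hP1', hDn, hRPG, hw.ge, by omega, ?_, ?_, ?_⟩
  · intro a ha
    rw [hu]
    exact Nat.le_floor ha
  · have := main4 n k m D w E u l s A th lam hl1 hkl hs1' hnk hk0 hA0 hm hD1' hlam1 hth0 hF2 hD1
      hw1 hw2 hE1 hE2 hEn (by linarith) hl2s hlog6 (by linarith) hCHO
    exact this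
  · have hDPn : 2 * D * P ≤ n := by
      have : (2 : ℝ) * D * P ≤ n := by linarith
      exact_mod_cast this
    have hDP0 : 1 ≤ 2 * D * P := by
      have := Nat.mul_pos hD1' hP1'
      rw [mul_assoc]
      omega
    have h1 : (bl n (2 * D * P) : ℝ) ≤ Real.exp ((2 * D * P : ℕ) * (lam / 2)) := by
      refine (hCHO.2 n (2 * D * P) hDP0 hDPn).trans (pow4 hn0 hth0 ?_ hF2 _)
      push_cast
      linarith
    have h2 : Real.exp ((2 * D * P : ℕ) * (lam / 2)) ≤ (2 : ℝ) ^ (16 * (f * n)) := by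
      rw [Real.rpow_def_of_pos (by norm_num)]
      apply Real.exp_le_exp.mpr
      push_cast
      have h3 : (2 * (D : ℝ) * P) * (lam / 2) ≤ 8 * (lam * th * n) := by
        have := mul_le_mul_of_nonneg_right hDP2 hlam0.le
        linarith
      have h4 : (1 : ℝ) / 2 ≤ Real.log 2 := by
        have := Real.log_two_gt_d9
        linarith
      have h5 : 0 ≤ f * n := by linarith
      have := mul_le_mul_of_nonneg_right h4 h5
      linarith
    rw [← Real.rpow_natCast 2 (G + 2 * (w + (w + E)) + 2 * u + 2)]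
    calc (2 : ℝ) ^ ((G + 2 * (w + (w + E)) + 2 * u + 2 : ℕ) : ℝ) * bl n (2 * D * P)
        ≤ (2 : ℝ) ^ ((G + 2 * (w + (w + E)) + 2 * u + 2 : ℕ) : ℝ) *
            (2 : ℝ) ^ (16 * (f * n)) :=
          mul_le_mul_of_nonneg_left (h1.trans h2) (by positivity)
      _ = (2 : ℝ) ^ (((G + 2 * (w + (w + E)) + 2 * u + 2 : ℕ) : ℝ) +
            16 * (f * n)) := by rw [Real.rpow_add (by norm_num)]
      _ ≤ _ := by
          apply Real.rpow_le_rpow_of_exponent_le (by norm_num)
          push_cast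
          linarith

end Pool.Agent.H67.SSM
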